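import Pool.Agent.H.MP_f73e8c_lc.Core

namespace Pool.Agent.Results.MP_f73e8c_lc.Hard
open Pool.Agent.Lib.CX Pool.Agent.H.MP_f73e8c_lc

def lt (φ : List (Cl3 ℕ)) (o : ℕ) : ℕ × Bool := litOf (φ.getD (o / 3) ((0, true), (0, true), (0, true)), o % 3)

def nb (l : ℕ × Bool) (a : Vx) : List Vx :=
  if a.1 = 0 then [(1, a.2.1, a.2.2), (1, a.2.1, a.2.2 - 1), (2, 0, a.2.2)]
  else if a.1 = 1 then [(0, a.2.1, a.2.2), (0, a.2.1, a.2.2 + 1), (2, 0, a.2.2)]
  else if a.1 = 2 then [(if l.2 = true then 0 else 1, l.1, a.2.2), (3, 0, a.2.2 / 3)]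
  else [(2, 0, 3 * a.2.2), (2, 0, 3 * a.2.2 + 1), (2, 0, 3 * a.2.2 + 2)]

def dc (N i : ℕ) : Vx := (i % 4, i / 4 / N, i / 4 % N)
def ix (N : ℕ) (a : Vx) : ℕ := 4 * (N * a.2.1 + a.2.2) + a.1
def tl (a : Vx) : ℕ := if a.1 = 2 then 2 + a.2.2 % 3 else if a.1 = 3 then 5 else a.1
def R (φ : List (Cl3 ℕ)) (a b : Vx) : Prop := b ∈ nb (lt φ a.2.2) a ∧ a ∈ nb (lt φ b.2.2) b
instance (φ a b) : Decidable (R φ a b) := by unfold R; infer_instance

def K (φ : List (Cl3 ℕ)) : ℕ := 4 * (3 * φ.length * (3 * φ.length))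
def ty (φ : List (Cl3 ℕ)) (i : ℕ) : ℕ := tl (dc (3 * φ.length) i)

def red (φ : List (Cl3 ℕ)) : Inst :=
  (arcs (ty φ) (K φ), (List.range (K φ)).map (term (ty φ)), (List.range (K φ) ×ˢ List.range (K φ)).filter fun p =>
    p.1 < p.2 ∧ R φ (dc (3 * φ.length) p.1) (dc (3 * φ.length) p.2))

theorem ix_dc (N i : ℕ) : ix N (dc N i) = i := by simp only [ix, dc, Nat.div_add_mod]

theorem dc_ix {N : ℕ} {a : Vx} (h1 : a.1 < 4) (h2 : a.2.2 < N) : dc N (ix N a) = a := by
  obtain ⟨k, v, o⟩ := a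
  have e : (4 * (N * v + o) + k) / 4 = N * v + o := by simp only at h1; omega
  simp only [dc, ix, e, Prod.mk.injEq]
  refine ⟨by simp only at h1; omega, ?_, ?_⟩
  · rw [Nat.mul_add_div (by omega), Nat.div_eq_of_lt h2]; rfl
  · rw [Nat.mul_add_mod, Nat.mod_eq_of_lt h2]

theorem ix_lt {N : ℕ} {a : Vx} (h1 : a.1 < 4) (h3 : a.2.1 < N) (h2 : a.2.2 < N) : ix N a < 4 * (N * N) := by
  unfold ix; nlinarith

theorem mem_F {φ p} : p ∈ (red φ).2.2 ↔ p.2 < K φ ∧ p.1 < p.2 ∧ R φ (dc (3 * φ.length) p.1) (dc (3 * φ.length) p.2) := by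
  obtain ⟨i, j⟩ := p
  simp only [red, List.mem_filter, List.mem_product, List.mem_range, decide_eq_true_eq]
  exact ⟨fun h => ⟨h.1.2, h.2⟩, fun h => ⟨⟨by omega, h.1⟩, h.2⟩⟩

theorem ty_lt (φ i) : ty φ i < 6 := by
  have : i % 4 < 4 := Nat.mod_lt _ (by omega)
  simp only [ty, tl, dc]; split_ifs <;> omega

def col (a : Vx) : Fin 3 := if a.1 = 1 then 1 else if a.1 = 2 then 2 else 0

theorem col_ne {l a b} (h : b ∈ nb l a) : col a ≠ col b := by
  obtain ⟨k, v, o⟩ := a
  unfold nb at h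
  split_ifs at h <;> simp only [List.mem_cons, List.not_mem_nil, or_false] at h <;>
    rcases h with rfl | rfl | rfl <;> simp_all [col]

theorem adj_R {φ i j} (h : (Gam (red φ)).Adj i j) : R φ (dc (3 * φ.length) i) (dc (3 * φ.length) j) := by
  rcases (SimpleGraph.fromRel_adj ..).1 h with ⟨-, h | h⟩
  exacts [(mem_F.1 h).2.2, (mem_F.1 h).2.2.symm]

theorem valid (φ) : Valid (red φ) := by
  have c3 : (Gam (red φ)).Colorable 3 :=
    ⟨SimpleGraph.Coloring.mk (fun i => col (dc (3 * φ.length) i)) fun h => col_ne (adj_R h).1⟩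
  refine ⟨arcs_planar _ _, ?_, fun t ht => ?_, (List.nodup_range.product List.nodup_range).filter _,
    fun p hp => ?_, fun i => ?_, c3, c3.cliqueFree (by omega)⟩
  · simp only [red, List.map_map, List.nodup_append, List.mem_map, List.mem_range]
    refine ⟨List.nodup_range.map fun i j e => ?_, List.nodup_range.map fun i j e => ?_, ?_⟩
    · simpa using (up_inj.1 e).2
    · simpa using (up_inj.1 e).2
    · rintro _ ⟨i, -, rfl⟩ _ ⟨j, -, rfl⟩ e
      obtain ⟨h1, h2⟩ := up_inj.1 e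
      obtain rfl : i = j := by omega
      exact rs_ne _ (ty_lt φ i) h1
  · obtain ⟨i, hi, rfl⟩ := List.mem_map.1 ht
    have hi := List.mem_range.1 hi
    exact ⟨⟨_, mem_arcs.2 (Or.inr ⟨i, hi, Or.inl rfl⟩), rfl⟩, _, mem_arcs.2 (Or.inr ⟨i, hi, Or.inr rfl⟩), rfl⟩
  · have := mem_F.1 hp; simp [red, this]
  · set l := nb (lt φ (dc (3 * φ.length) i).2.2) (dc (3 * φ.length) i) with hl
    have h1 : (Gam (red φ)).neighborSet i ⊆ ((l.map (ix (3 * φ.length))).toFinset : Set ℕ) := fun j hj => by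
      simp only [List.coe_toFinset, List.mem_map, Set.mem_ofPred_eq]
      exact ⟨_, (adj_R hj).1, ix_dc ..⟩
    refine (Set.encard_le_encard h1).trans ?_
    rw [Set.encard_coe_eq_coe_finsetCard]
    have h2 : l.length ≤ 3 := by rw [hl]; unfold nb; split_ifs <;> simp
    exact_mod_cast (List.toFinset_card_le _).trans (by simpa using h2)

theorem pt_red : PT red := by
  have h1 : PT fun q : List (Cl3 ℕ) × ℕ => lt q.1 q.2 := by unfold lt litOf; fun_prop
  have h2 : PT fun q : (ℕ × Bool) × Vx => nb q.1 q.2 := by unfold nb; fun_prop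
  have h3 : PT fun q : List (Cl3 ℕ) × Vx => nb (lt q.1 q.2.2.2) q.2 :=
    h2.comp (g := fun q : List (Cl3 ℕ) × Vx => (lt q.1 q.2.2.2, q.2)) (by fun_prop)
  have h4 : PT fun q : List (Cl3 ℕ) × ℕ => dc (3 * q.1.length) q.2 := by unfold dc; fun_prop
  have h5 : PT fun q : List (Cl3 ℕ) × ℕ => ty q.1 q.2 := by unfold ty tl dc; fun_prop
  have h6 : PT fun q : List (Cl3 ℕ) × Vx × Vx => decide (R q.1 q.2.1 q.2.2) := by unfold R; fun_prop
  have h7 : PT fun q : List (Cl3 ℕ) × ℕ × ℕ => decide (R q.1 (dc (3 * q.1.length) q.2.1) (dc (3 * q.1.length) q.2.2)) :=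
    h6.comp (g := fun q : List (Cl3 ℕ) × ℕ × ℕ => (q.1, dc (3 * q.1.length) q.2.1, dc (3 * q.1.length) q.2.2))
      (by unfold dc; fun_prop)
  have h8 : PT fun φ => List.range (K φ) := by unfold K; fun_prop
  have h9 : PT rc := by unfold rc; fun_prop
  have h10 : PT sc := by unfold sc; fun_prop
  unfold red arcs term up; fun_prop

theorem complete {φ} (v : ℕ → Bool) (c : ℕ → ℕ) (hc : ∀ j < φ.length, c j < 3 ∧ v (lt φ (3 * j + c j)).1 = (lt φ (3 * j + c j)).2) :
    Solvable (red φ) := by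
  let op : Vx → ℕ := fun a => if a.1 = 2 then (if v (lt φ a.2.2).1 = (lt φ a.2.2).2 then 0 else 1)
    else if a.1 = 3 then c a.2.2 % 3 else if v a.2.1 = true then 0 else 1
  have o3 : ∀ a, op a < 3 := fun a => by simp only [op]; split_ifs <;> omega
  have key : ∀ a b, a.1 < 4 → b.1 < 4 → a.1 < b.1 → a.2.2 < 3 * φ.length → R φ a b →
      ∀ x ∈ route (tl a) (op a), x ∉ route (tl b) (op b) := by
    rintro ⟨k, w, o⟩ b hk hb hl ho ⟨h1, h2⟩
    simp only at hk ho
    interval_cases k <;> simp only [nb, reduceIte, OfNat.ofNat_ne_zero, OfNat.ofNat_ne_one, one_ne_zero, List.mem_cons,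
      List.not_mem_nil, or_false, Nat.reduceEqDiff] at h1
    · rcases h1 with rfl | rfl | rfl
      · exact dXY _ (by simp only [op]; split_ifs <;> omega)
      · exact dXY _ (by simp only [op]; split_ifs <;> omega)
      · refine dXL 0 (by omega) _ (by simp only [op]; split_ifs <;> omega) _ (Nat.mod_lt _ (by omega)) _
          (by simp only [op]; split_ifs <;> omega) ?_
        simp only [nb, op] at h2 ⊢; grind
    · rcases h1 with rfl | rfl | rfl
      · simp at hl
      · simp at hl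
      · refine dXL 1 (by omega) _ (by simp only [op]; split_ifs <;> omega) _ (Nat.mod_lt _ (by omega)) _
          (by simp only [op]; split_ifs <;> omega) ?_
        simp only [nb, op] at h2 ⊢; grind
    · rcases h1 with rfl | rfl
      · simp only at hl; split_ifs at hl <;> omega
      · refine dLC _ (Nat.mod_lt _ (by omega)) _ (by simp only [op]; split_ifs <;> omega) _ (o3 _) fun e => ?_
        obtain ⟨h3, h4⟩ := hc (o / 3) (by omega)
        simp only [op, reduceIte, Nat.reduceEqDiff] at e ⊢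
        rw [show 3 * (o / 3) + c (o / 3) = o by omega] at h4
        simp [h4]
    · omega
  refine ⟨fun i => path (ty φ) i (op (dc (3 * φ.length) i)), fun i hi => ?_, fun p hp => ?_⟩
  · simp only [red, List.length_map, List.length_range, List.getElem_map, List.getElem_range] at hi ⊢
    exact path_ok hi (ty_lt ..) (o3 _)
  · obtain ⟨h1, h2, h3⟩ := mem_F.1 hp
    have hN : 0 < 3 * φ.length := by
      rcases Nat.eq_zero_or_pos (3 * φ.length) with h | h
      · simp [K, h] at h1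
      · exact h
    have m4 := fun i : ℕ => Nat.mod_lt i (show 0 < 4 by omega)
    have ne : (dc (3 * φ.length) p.1).1 ≠ (dc (3 * φ.length) p.2).1 := fun e =>
      col_ne h3.1 (by simp only [col, e])
    rcases lt_or_gt_of_ne ne with h | h
    · exact path_disj h2.ne (key _ _ (m4 _) (m4 _) h (Nat.mod_lt _ hN) h3)
    · exact (path_disj h2.ne' (key _ _ (m4 _) (m4 _) h (Nat.mod_lt _ hN) h3.symm)).symm

theorem sound {φ} (hφ : ∀ o < 3 * φ.length, (lt φ o).1 < 3 * φ.length) (h : Solvable (red φ)) :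
    ∃ v : ℕ → Bool, ∀ j < φ.length, ∃ t < 3, v (lt φ (3 * j + t)).1 = (lt φ (3 * j + t)).2 := by
  classical
  obtain ⟨P, h1, h2⟩ := h
  set N := 3 * φ.length with hN
  let Q : Vx → Pt → Prop := fun a z => up z 0 ∈ P (ix N a)
  have ht : ∀ k < 4, ∀ w < N, ∀ o < N, ∀ Z, Cut (tl (k, w, o)) Z → ∃ z ∈ Z, Q (k, w, o) z := fun k hk w hw o ho Z hZ => by
    have h3 : ix N (k, w, o) < K φ := ix_lt hk hw ho
    have h4 := h1 (ix N (k, w, o)) (by simpa [red] using h3)
    simp only [red, List.getElem_map, List.getElem_range] at h4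
    exact hit (by rwa [ty, dc_ix hk ho]) h4
  have dj : ∀ k < 4, ∀ w < N, ∀ o < N, ∀ k' < 4, ∀ w' < N, ∀ o' < N, R φ (k, w, o) (k', w', o') →
      ∀ z, Q (k, w, o) z → ¬ Q (k', w', o') z := fun k hk w hw o ho k' hk' w' hw' o' ho' r z q1 q2 => by
    have e1 := dc_ix (a := (k, w, o)) hk ho
    have e2 := dc_ix (a := (k', w', o')) hk' ho'
    have ne : ix N (k, w, o) ≠ ix N (k', w', o') := fun e => col_ne r.1 (by rw [← e1, ← e2, e])
    rcases lt_or_gt_of_ne ne with h | h
    · exact h2 (ix N (k, w, o), ix N (k', w', o')) (mem_F.2 ⟨ix_lt hk' hw' ho', h, by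
        simp only [← hN, e1, e2, r]⟩) q1 q2
    · exact h2 (ix N (k', w', o'), ix N (k, w, o)) (mem_F.2 ⟨ix_lt hk hw ho, h, by
        simp only [← hN, e1, e2]; exact r.symm⟩) q2 q1
  have hx : ∀ k < 2, ∀ w < N, ∀ o < N, ∀ t < 3, Q (k, w, o) (4, 0) ∨ Q (k, w, o) (be t) := fun k hk w hw o ho t h3 => by
    obtain ⟨z, hz, h⟩ := ht k (by omega) w hw o ho _ (by
      rw [show tl (k, w, o) = k by simp only [tl]; split_ifs <;> omega]; exact cutX k hk t h3)
    simp only [List.mem_cons, List.not_mem_nil, or_false] at hz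
    rcases hz with rfl | rfl
    exacts [Or.inl h, Or.inr h]
  have xy : ∀ w < N, ∀ o < N, ∀ o' < N, R φ (0, w, o) (1, w, o') → (Q (0, w, o) (4, 0) ↔ ¬ Q (1, w, o') (4, 0)) :=
    fun w hw o ho o' ho' r => by
      have d := dj 0 (by omega) w hw o ho 1 (by omega) w hw o' ho' r
      have := hx 0 (by omega) w hw o ho 0 (by omega)
      have := hx 1 (by omega) w hw o' ho' 0 (by omega)
      grind
  have ch : ∀ w < N, ∀ o < N, (Q (0, w, o) (4, 0) ↔ Q (0, w, 0) (4, 0)) := fun w hw o ho => by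
    induction o with
    | zero => rfl
    | succ o ih =>
      rw [← ih (by omega), xy w hw _ ho o (by omega) (by simp [R, nb]), xy w hw o (by omega) o (by omega) (by simp [R, nb])]
  refine ⟨fun w => decide (Q (0, w, 0) (4, 0)), fun j hj => ?_⟩
  have h0 : 0 < N := by omega
  obtain ⟨t, h3, h4⟩ : ∃ t < 3, Q (3, 0, j) (ga t) := by
    obtain ⟨z, hz, h⟩ := ht 3 (by omega) 0 h0 j (by omega) _ cutC
    simp only [List.mem_cons, List.not_mem_nil, or_false] at hz
    rcases hz with rfl | rfl | rfl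
    exacts [⟨0, by omega, h⟩, ⟨1, by omega, h⟩, ⟨2, by omega, h⟩]
  refine ⟨t, h3, ?_⟩
  have ho : 3 * j + t < N := by omega
  have h5 := dj 3 (by omega) 0 h0 j (by omega) 2 (by omega) 0 h0 _ ho (by
    refine ⟨by interval_cases t <;> simp [nb], ?_⟩
    simp [nb, show (3 * j + t) / 3 = j by omega]) _ h4
  have h6 : Q (2, 0, 3 * j + t) (be t) := by
    have := ht 2 (by omega) 0 h0 _ ho _ (by
      rw [show tl (2, 0, 3 * j + t) = 2 + t by simp only [tl, if_true]; omega]; exact cutL t h3)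
    simpa [h5, -Prod.exists] using this
  have h7 := hφ _ ho
  have h8 := xy _ h7 _ ho _ ho (by simp [R, nb])
  rw [ch _ h7 _ ho] at h8
  cases hb : (lt φ (3 * j + t)).2
  · have := dj 2 (by omega) 0 h0 _ ho 1 (by omega) _ h7 _ ho (by simp [R, nb, hb]) _ h6
    have := hx 1 (by omega) _ h7 _ ho t h3
    simp only [decide_eq_false_iff_not]; tauto
  · have := dj 2 (by omega) 0 h0 _ ho 0 (by omega) _ h7 _ ho (by simp [R, nb, hb]) _ h6
    have := hx 0 (by omega) _ h7 _ ho t h3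
    rw [ch _ h7 _ ho] at this
    simp only [decide_eq_true_eq]; tauto

theorem result : NPHard fun a : {a : Inst // Valid a} => Solvable a.1 := by
  refine NPHard.of_sat3 _ (pt_red.subtype valid) fun φ hφ => ?_
  have e : ∀ j (hj : j < φ.length), ∀ t < 3, lt φ (3 * j + t) = litOf (φ[j], t) := fun j hj t ht => by
    simp [lt, show (3 * j + t) / 3 = j by omega, show (3 * j + t) % 3 = t by omega, hj]
  have e2 : Sat3 φ ↔ ∃ v : ℕ → Bool, ∀ j < φ.length, ∃ t < 3, v (lt φ (3 * j + t)).1 = (lt φ (3 * j + t)).2 := by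
    refine exists_congr fun v => (List.forall_mem_iff_forall_getElem ..).trans (forall₂_congr fun j hj => ?_)
    rw [ok_iff]
    exact exists_congr fun t => and_congr_right fun ht => by rw [e j hj t ht]
  rw [e2]
  refine ⟨fun ⟨v, h⟩ => ?_, sound fun o ho => ?_⟩
  · choose! c hc using h
    exact complete v c hc
  · have hj : o / 3 < φ.length := by omega
    rw [show o = 3 * (o / 3) + o % 3 by omega, e _ hj _ (by omega)]
    refine hφ _ (List.getElem_mem hj) _ ?_
    have : o % 3 < 3 := by omega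
    generalize o % 3 = t at this
    interval_cases t <;> simp [litOf, Cl3.vars]

end Pool.Agent.Results.MP_f73e8c_lc.Hard
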